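import Pool.Agent.Q41.LP.Ops
import Pool.Agent.Q41.LP.Arith

/-!
# A Leonard pair over the real numbers without the equitable module structure

The idea and the example are due to helper42 of our team.
-/

open Module Q41.LP

namespace Pool.Agent.Results.MP_32472a_al.NoEquitableStructure

section Defs

variable {K : Type*} [Field K]

/-- A square matrix is irreducible tridiagonal. -/
def IrredTridiag {n : ℕ} (M : Matrix (Fin n) (Fin n) K) : Prop :=
  (∀ i j : Fin n, (i : ℕ) + 1 < j ∨ (j : ℕ) + 1 < i → M i j = 0) ∧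
    ∀ i j : Fin n, (i : ℕ) + 1 = j → M i j ≠ 0 ∧ M j i ≠ 0

variable {V : Type*} [AddCommGroup V] [Module K V]

/-- `A, A'` is a Leonard pair on the `(d+1)`-dimensional space `V`, whose eigenvalues in a standard
order are `θ` (for `A`) and `θ'` (for `A'`): in a basis of eigenvectors of `A` listed in the order
`θ`, the matrix of `A'` is irreducible tridiagonal, and vice versa. -/
def IsLeonardPair {d : ℕ} (A A' : End K V) (θ θ' : Fin (d + 1) → K) : Prop :=
  (∃ b : Basis (Fin (d + 1)) K V, (∀ i, A (b i) = θ i • b i) ∧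
    IrredTridiag (LinearMap.toMatrix b b A')) ∧
  (∃ b : Basis (Fin (d + 1)) K V, (∀ i, A' (b i) = θ' i • b i) ∧
    IrredTridiag (LinearMap.toMatrix b b A))

/-- The recurrence `θ_i - θ_{i+3} = (β + 1) (θ_{i+1} - θ_{i+2})`. -/
def HasBeta {d : ℕ} (β : K) (θ : Fin (d + 1) → K) : Prop :=
  ∀ i j k l : Fin (d + 1), (j : ℕ) = i + 1 → (k : ℕ) = i + 2 → (l : ℕ) = i + 3 →
    θ i - θ l = (β + 1) * (θ j - θ k)

/-- Generators of the equitable presentation. -/
inductive Gen
  | X | Xinv | Y | Z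

/-- The element `(q a b - q⁻¹ b a) / (q - q⁻¹)` of the free algebra. -/
noncomputable def comb (q : K) (a b : FreeAlgebra K Gen) : FreeAlgebra K Gen :=
  (q - q⁻¹)⁻¹ • (q • (a * b) - q⁻¹ • (b * a))

/-- A free generator. -/
noncomputable def fr (g : Gen) : FreeAlgebra K Gen := FreeAlgebra.ι K g

/-- Relations of the equitable presentation. -/
inductive Rel (q : K) : FreeAlgebra K Gen → FreeAlgebra K Gen → Prop
  | inv_right : Rel q (fr Gen.X * fr Gen.Xinv) 1
  | inv_left : Rel q (fr Gen.Xinv * fr Gen.X) 1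
  | xy : Rel q (comb q (fr Gen.X) (fr Gen.Y)) 1
  | yz : Rel q (comb q (fr Gen.Y) (fr Gen.Z)) 1
  | zx : Rel q (comb q (fr Gen.Z) (fr Gen.X)) 1

/-- `U_q(sl_2)` in the equitable presentation. -/
abbrev Uq (q : K) := RingQuot (Rel q)

/-- The equitable generators in `U_q(sl_2)`. -/
noncomputable def gen (q : K) (g : Gen) : Uq q := RingQuot.mkAlgHom K (Rel q) (fr g)

/-- The module structure `φ` on `V` is irreducible. -/
def IsIrreducible {q : K} (φ : Uq q →ₐ[K] End K V) : Prop :=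
  ∀ W : Submodule K V, (∀ u : Uq q, ∀ w ∈ W, φ u w ∈ W) → W = ⊥ ∨ W = ⊤

/-- The span of `1, f, g, fg`. -/
def span4 (f g : End K V) : Submodule K (End K V) := Submodule.span K {1, f, g, f * g}

/-- There is an irreducible `U_q(sl_2)`-module structure on `V` with `A` in the span of
`1, X, Y, XY` and `A'` in the span of `1, Y, Z, YZ`. -/
def HasStructure (q : K) (A A' : End K V) : Prop :=
  ∃ φ : Uq q →ₐ[K] End K V, IsIrreducible φ ∧
    A ∈ span4 (φ (gen q Gen.X)) (φ (gen q Gen.Y)) ∧ A' ∈ span4 (φ (gen q Gen.Y)) (φ (gen q Gen.Z))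

end Defs

/-- Submodules stable under the generators are stable under the algebra. -/
lemma stable {K : Type*} [Field K] {V : Type*} [AddCommGroup V] [Module K V] {q : K}
    (φ : Uq q →ₐ[K] End K V) (W : Submodule K V)
    (h : ∀ g, ∀ w ∈ W, φ (gen q g) w ∈ W) : ∀ u : Uq q, ∀ w ∈ W, φ u w ∈ W := by
  intro u
  obtain ⟨a, rfl⟩ := RingQuot.mkAlgHom_surjective K (Rel q) u
  induction a using FreeAlgebra.induction with
  | grade0 r =>
    intro w hw
    rw [AlgHom.commutes, AlgHom.commutes, Module.algebraMap_end_apply]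
    exact W.smul_mem r hw
  | grade1 g => exact h g
  | mul a b ha hb =>
    intro w hw
    rw [map_mul, map_mul, Module.End.mul_apply]
    exact ha _ (hb _ hw)
  | add a b ha hb =>
    intro w hw
    rw [map_add, map_add, LinearMap.add_apply]
    exact W.add_mem (ha _ hw) (hb _ hw)

lemma mkRel {K : Type*} [Field K] {V : Type*} [AddCommGroup V] [Module K V] {q : K}
    (φ : Uq q →ₐ[K] End K V) {a b : FreeAlgebra K Gen} (h : Rel q a b) :
    φ (RingQuot.mkAlgHom K (Rel q) a) = φ (RingQuot.mkAlgHom K (Rel q) b) := by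
  rw [RingQuot.mkAlgHom_rel K h]

/-- From an algebra map to the relations between operators. -/
lemma tri_of {V : Type*} [AddCommGroup V] [Module ℝ V] (φ : Uq (2 : ℝ) →ₐ[ℝ] End ℝ V) :
    Tri (φ (gen 2 Gen.X)) (φ (gen 2 Gen.Xinv)) (φ (gen 2 Gen.Y)) (φ (gen 2 Gen.Z)) := by
  have hsm : ∀ (a b : Gen), φ (RingQuot.mkAlgHom ℝ (Rel (2 : ℝ))
      (comb 2 (fr a) (fr b))) = 1 →
      ∀ v, (2 : ℝ) • φ (gen 2 a) (φ (gen 2 b) v) - (1 / 2 : ℝ) • φ (gen 2 b) (φ (gen 2 a) v)
        = (3 / 2 : ℝ) • v := by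
    intro a b h v
    simp only [comb, map_smul, map_sub, map_mul] at h
    have h1 := LinearMap.congr_fun h v
    simp only [LinearMap.smul_apply, LinearMap.sub_apply, Module.End.mul_apply,
      Module.End.one_apply] at h1
    have h2 : ((2 : ℝ) - 2⁻¹)⁻¹ • ((2 : ℝ) • φ (gen 2 a) (φ (gen 2 b) v)
        - (2 : ℝ)⁻¹ • φ (gen 2 b) (φ (gen 2 a) v)) = v := h1
    have h3 : (3 / 2 : ℝ) • v = (3 / 2 : ℝ) • (((2 : ℝ) - 2⁻¹)⁻¹ •
        ((2 : ℝ) • φ (gen 2 a) (φ (gen 2 b) v)
        - (2 : ℝ)⁻¹ • φ (gen 2 b) (φ (gen 2 a) v))) := by rw [h2]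
    rw [h3, smul_smul]
    norm_num
  refine ⟨?_, ?_, hsm _ _ ?_, hsm _ _ ?_, hsm _ _ ?_⟩
  · intro v
    have h := mkRel φ (Rel.inv_right (q := (2 : ℝ)))
    rw [map_mul, map_mul, map_one, map_one] at h
    exact LinearMap.congr_fun h v
  · intro v
    have h := mkRel φ (Rel.inv_left (q := (2 : ℝ)))
    rw [map_mul, map_mul, map_one, map_one] at h
    exact LinearMap.congr_fun h v
  · exact (mkRel φ (Rel.xy (q := (2 : ℝ)))).trans (by rw [map_one, map_one])
  · exact (mkRel φ (Rel.yz (q := (2 : ℝ)))).trans (by rw [map_one, map_one])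
  · exact (mkRel φ (Rel.zx (q := (2 : ℝ)))).trans (by rw [map_one, map_one])

/-- Matrix of the first map of the example. -/
noncomputable def matA : Matrix (Fin 4) (Fin 4) ℝ :=
  !![129 / 8, 1, 0, 0; 0, 9 / 2, 1, 0; 0, 0, 3, 1; 0, 0, 0, 33 / 4]

/-- Matrix of the second map of the example. -/
noncomputable def matB : Matrix (Fin 4) (Fin 4) ℝ :=
  !![129 / 8, 0, 0, 0; -12285 / 64, 9 / 2, 0, 0; 0, -1125 / 16, 3, 0; 0, 0, -945 / 16, 33 / 4]

/-- The eigenvalues. -/
noncomputable def th : Fin 4 → ℝ := ![129 / 8, 9 / 2, 3, 33 / 4]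

lemma toMatrix_of {b : Basis (Fin 4) ℝ (Fin 4 → ℝ)} {f : End ℝ (Fin 4 → ℝ)}
    {T : Matrix (Fin 4) (Fin 4) ℝ} (h : ∀ j, f (b j) = ∑ i, T i j • b i) :
    LinearMap.toMatrix b b f = T := by
  ext i j
  rw [LinearMap.toMatrix_apply, h j, b.repr_sum_self]

lemma half (C D P T : Matrix (Fin 4) (Fin 4) ℝ) (θ : Fin 4 → ℝ) (hP : P.det ≠ 0)
    (h1 : C * P = P * Matrix.diagonal θ) (h2 : D * P = P * T) (hT : IrredTridiag T) :
    ∃ b : Basis (Fin 4) ℝ (Fin 4 → ℝ), (∀ i, Matrix.toLin' C (b i) = θ i • b i) ∧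
      IrredTridiag (LinearMap.toMatrix b b (Matrix.toLin' D)) := by
  let hI := P.invertibleOfIsUnitDet (isUnit_iff_ne_zero.2 hP)
  let b := (Pi.basisFun ℝ (Fin 4)).map (P.toLinearEquiv' hI)
  have hb : ∀ i j, b j i = P i j := by
    intro i j
    show ((P.toLinearEquiv' hI : Module.End ℝ (Fin 4 → ℝ)) (Pi.basisFun ℝ (Fin 4) j)) i = _
    rw [Matrix.toLinearEquiv'_apply, Matrix.toLin'_apply, Pi.basisFun_apply,
      Matrix.mulVec_single_one]
    rfl
  have hC : ∀ (E : Matrix (Fin 4) (Fin 4) ℝ) i j, Matrix.toLin' E (b j) i = (E * P) i j := by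
    intro E i j
    rw [Matrix.toLin'_apply, Matrix.mulVec, Matrix.mul_apply]
    exact Finset.sum_congr rfl fun k _ => by rw [hb]
  refine ⟨b, ?_, ?_⟩
  · intro j
    funext i
    rw [hC, h1, Matrix.mul_diagonal, Pi.smul_apply, hb, smul_eq_mul, mul_comm]
  · rw [toMatrix_of (T := T)]
    · exact hT
    · intro j
      funext i
      rw [hC, h2, Matrix.mul_apply, Finset.sum_apply]
      exact Finset.sum_congr rfl fun k _ => by rw [Pi.smul_apply, hb, smul_eq_mul, mul_comm]

lemma leonard : IsLeonardPair (d := 3) (Matrix.toLin' matA) (Matrix.toLin' matB) th th := by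
  constructor
  · refine half matA matB
      !![1, -8 / 93, 16 / 315, -128 / 19845; 0, 1, -2 / 3, 16 / 315; 0, 0, 1, 4 / 21; 0, 0, 0, 1]
      !![-12 / 31, -272 / 6727, 0, 0; -12285 / 64, -3207 / 124, 31, 0;
        0, -1125 / 16, 489 / 8, -17 / 7; 0, 0, -945 / 16, -3] th ?_ ?_ ?_ ?_
    · simp [Matrix.det_succ_row_zero, Fin.sum_univ_succ]
    · ext i j
      fin_cases i <;> fin_cases j <;>
        simp [matA, th, Matrix.mul_apply, Fin.sum_univ_four, Matrix.diagonal] <;> norm_num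
    · ext i j
      fin_cases i <;> fin_cases j <;>
        simp [matB, Matrix.mul_apply, Fin.sum_univ_four] <;> norm_num
    · constructor
      · intro i j h
        fin_cases i <;> fin_cases j <;> first | rfl | (exfalso; revert h; simp)
      · intro i j h
        fin_cases i <;> fin_cases j <;> first | (exfalso; revert h; simp; done) | (constructor <;> norm_num)
  · refine half matB matA
      !![-992 / 658125, 0, 0, 0; 28 / 1125, -32 / 23625, 0, 0; -2 / 15, 4 / 63, 4 / 45, 0;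
        1, 1, 1, 1]
      !![-12 / 31, 195 / 217, 0, 0; 1071 / 124, -3207 / 124, -525 / 8, 0;
        0, 465 / 14, 489 / 8, 45 / 4; 0, 0, 51 / 4, -3] th ?_ ?_ ?_ ?_
    · simp [Matrix.det_succ_row_zero, Fin.sum_univ_succ]
    · ext i j
      fin_cases i <;> fin_cases j <;>
        simp [matB, th, Matrix.mul_apply, Fin.sum_univ_four, Matrix.diagonal] <;> norm_num
    · ext i j
      fin_cases i <;> fin_cases j <;>
        simp [matA, Matrix.mul_apply, Fin.sum_univ_four] <;> norm_num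
    · constructor
      · intro i j h
        fin_cases i <;> fin_cases j <;> first | rfl | (exfalso; revert h; simp)
      · intro i j h
        fin_cases i <;> fin_cases j <;> first | (exfalso; revert h; simp; done) | (constructor <;> norm_num)

lemma beta_th : HasBeta (d := 3) ((2 : ℝ) ^ 2 + ((2 : ℝ)⁻¹) ^ 2) th := by
  intro i j k l h1 h2 h3
  have hi : i = 0 := by
    have := l.isLt
    ext
    simp
    omega
  subst hi
  have hj : j = 1 := by ext; simpa using h1
  have hk : k = 2 := by ext; simpa using h2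
  have hl : l = 3 := by ext; simpa using h3
  subst hj hk hl
  simp [th]
  norm_num

lemma mem_span_four {V : Type*} [AddCommGroup V] [Module ℝ V] {x a b c d : V}
    (h : x ∈ Submodule.span ℝ ({a, b, c, d} : Set V)) :
    ∃ r s t u : ℝ, x = r • a + s • b + t • c + u • d := by
  rw [Submodule.mem_span_insert] at h
  obtain ⟨r, z, hz, rfl⟩ := h
  rw [Submodule.mem_span_triple] at hz
  obtain ⟨s, t, u, rfl⟩ := hz
  exact ⟨r, s, t, u, by abel⟩

lemma det_eq (C T : Matrix (Fin 4) (Fin 4) ℝ) (b : Basis (Fin 4) ℝ (Fin 4 → ℝ))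
    (h : LinearMap.toMatrix b b (Matrix.toLin' C) = T) (x : ℝ) :
    (x • (1 : Matrix (Fin 4) (Fin 4) ℝ) - T).det = (x • (1 : Matrix (Fin 4) (Fin 4) ℝ) - C).det := by
  have h1 : x • (1 : Matrix (Fin 4) (Fin 4) ℝ) - T
      = LinearMap.toMatrix b b (x • LinearMap.id - Matrix.toLin' C) := by
    rw [map_sub, h, map_smul, LinearMap.toMatrix_id]
  have h2 : x • LinearMap.id - Matrix.toLin' C
      = Matrix.toLin' (x • (1 : Matrix (Fin 4) (Fin 4) ℝ) - C) := by
    rw [map_sub, map_smul, Matrix.toLin'_one]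
  rw [h1, LinearMap.det_toMatrix, h2, LinearMap.det_toLin']

lemma trace_eq (C T : Matrix (Fin 4) (Fin 4) ℝ) (b : Basis (Fin 4) ℝ (Fin 4 → ℝ))
    (h : LinearMap.toMatrix b b (Matrix.toLin' C) = T) : T.trace = C.trace := by
  rw [← h, ← LinearMap.trace_eq_matrix_trace ℝ b, Matrix.trace_toLin'_eq]

theorem no_structure (φ : Uq (2 : ℝ) →ₐ[ℝ] End ℝ (Fin 4 → ℝ)) (hφ : IsIrreducible φ)
    (hA : Matrix.toLin' matA ∈ Submodule.span ℝ
      {1, φ (gen 2 Gen.X), φ (gen 2 Gen.Y), φ (gen 2 Gen.X) * φ (gen 2 Gen.Y)})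
    (hB : Matrix.toLin' matB ∈ Submodule.span ℝ
      {1, φ (gen 2 Gen.Y), φ (gen 2 Gen.Z), φ (gen 2 Gen.Y) * φ (gen 2 Gen.Z)}) : False := by
  have hT := tri_of φ
  have hirr : ∀ W : Submodule ℝ (Fin 4 → ℝ), (∀ w ∈ W, φ (gen 2 Gen.X) w ∈ W ∧
      φ (gen 2 Gen.Xinv) w ∈ W ∧ φ (gen 2 Gen.Y) w ∈ W ∧ φ (gen 2 Gen.Z) w ∈ W) →
      W = ⊥ ∨ W = ⊤ := by
    intro W hW
    refine hφ W (stable φ W ?_)
    intro g w hw
    obtain ⟨h1, h2, h3, h4⟩ := hW w hw
    cases g
    · exact h1
    · exact h2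
    · exact h3
    · exact h4
  obtain ⟨r, s, t, u, hAe⟩ := mem_span_four hA
  obtain ⟨r', s', t', u', hBe⟩ := mem_span_four hB
  generalize φ (gen 2 Gen.X) = X at *
  generalize φ (gen 2 Gen.Xinv) = Xi at *
  generalize φ (gen 2 Gen.Y) = Y at *
  generalize φ (gen 2 Gen.Z) = Z at *
  obtain ⟨n, m, hnm⟩ := exists_nm X Xi Y Z hT
  obtain ⟨e, b, he, hY, ⟨m0, m1, m2, m3⟩, ⟨n0, n1, n2, n3⟩⟩ :=
    hnm.basis hT (by simp) hirr
  have hee : e * e = 1 := by rcases he with rfl | rfl <;> norm_num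
  have y0 := hY 0
  have y1 := hY 1
  have y2 := hY 2
  have y3 := hY 3
  simp only [Fin.val_zero, Fin.val_one, Fin.val_two, pow_zero, pow_one, mul_one] at y0 y1 y2
  have y3' : Y (b 3) = (e / 8) • b 3 := by
    rw [y3]
    congr 1
    norm_num
    ring
  have y2' : Y (b 2) = (e / 2) • b 2 := by
    rw [y2]
    congr 1
    ring
  have y1' : Y (b 1) = (e * 2) • b 1 := by
    rw [y1]
    congr 1
    ring
  have inv : ∀ (i : Fin 4) (c : ℝ), Y (b i) = (e / c) • b i → c ≠ 0 → b i = Y ((e * c) • b i) := by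
    intro i c h hc
    rw [map_smul, h, smul_smul]
    have : e * c * (e / c) = 1 := by
      field_simp
      nlinarith [hee]
    rw [this, one_smul]
  have i0 := inv 0 (1 / 8) (by rw [y0]; congr 1; field_simp) (by norm_num)
  have i1 := inv 1 (1 / 2) (by rw [y1']; congr 1; field_simp) (by norm_num)
  have i2 := inv 2 2 y2' (by norm_num)
  have i3 := inv 3 8 y3' (by norm_num)
  -- `X` on the basis
  have x0 : X (b 0) = (e * (1 / 8)) • b 0 := by
    have : X (b 0) = X (Y ((e * (1 / 8)) • b 0)) := by rw [← i0]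
    rw [this, hnm.n1, map_smul, n0, smul_zero, smul_zero, sub_zero]
  have x1 : X (b 1) = (e * (1 / 2)) • b 1 + (e * (189 / 16)) • b 0 := by
    have : X (b 1) = X (Y ((e * (1 / 2)) • b 1)) := by rw [← i1]
    rw [this, hnm.n1, map_smul, n1]
    module
  have x2 : X (b 2) = (e * 2) • b 2 + (e * (225 / 16)) • b 1 := by
    have : X (b 2) = X (Y ((e * 2) • b 2)) := by rw [← i2]
    rw [this, hnm.n1, map_smul, n2]
    module
  have x3 : X (b 3) = (e * 8) • b 3 + (e * (189 / 16)) • b 2 := by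
    have : X (b 3) = X (Y ((e * 8) • b 3)) := by rw [← i3]
    rw [this, hnm.n1, map_smul, n3]
    module
  have z0 : Z (b 0) = (e * (1 / 8)) • b 0 - (e * (1 / 4)) • b 1 := by
    have : Z (b 0) = Z (Y ((e * (1 / 8)) • b 0)) := by rw [← i0]
    rw [this, hnm.m2, map_smul, m0]
    module
  have z1 : Z (b 1) = (e * (1 / 2)) • b 1 - e • b 2 := by
    have : Z (b 1) = Z (Y ((e * (1 / 2)) • b 1)) := by rw [← i1]
    rw [this, hnm.m2, map_smul, m1]
    module
  have z2 : Z (b 2) = (e * 2) • b 2 - (e * 4) • b 3 := by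
    have : Z (b 2) = Z (Y ((e * 2) • b 2)) := by rw [← i2]
    rw [this, hnm.m2, map_smul, m2]
    module
  have z3 : Z (b 3) = (e * 8) • b 3 := by
    have : Z (b 3) = Z (Y ((e * 8) • b 3)) := by rw [← i3]
    rw [this, hnm.m2, map_smul, m3, smul_zero, smul_zero, sub_zero]
  -- the two matrices
  have hAb : ∀ v, Matrix.toLin' matA v = r • v + s • X v + t • Y v + u • (v - (1 / 2 : ℝ) • n v) := by
    intro v
    rw [hAe]
    simp only [LinearMap.add_apply, LinearMap.smul_apply, Module.End.one_apply,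
      Module.End.mul_apply, hnm.n1]
  have hBb : ∀ v, Matrix.toLin' matB v
      = r' • v + s' • Y v + t' • Z v + u' • (v - (1 / 2 : ℝ) • m v) := by
    intro v
    rw [hBe]
    simp only [LinearMap.add_apply, LinearMap.smul_apply, Module.End.one_apply,
      Module.End.mul_apply, hnm.m1]
  set c := r + u with hc
  set a1 := e * s with ha1
  set a2 := e * t with ha2
  set c' := r' + u' with hc'
  set b1 := e * s' with hb1
  set b2 := e * t' with hb2
  have hM : LinearMap.toMatrix b b (Matrix.toLin' matA) =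
      !![c + a1 / 8 + 8 * a2, 189 / 8 * (u + a1 / 2), 0, 0;
        0, c + a1 / 2 + 2 * a2, 225 / 32 * (u + 2 * a1), 0;
        0, 0, c + 2 * a1 + a2 / 2, 189 / 128 * (u + 8 * a1);
        0, 0, 0, c + 8 * a1 + a2 / 8] := by
    refine toMatrix_of fun j => ?_
    rw [Fin.sum_univ_four, hAb]
    fin_cases j
    · simp only [Fin.mk_zero, Fin.isValue, Matrix.of_apply, Matrix.cons_val', Matrix.cons_val_zero,
        Matrix.cons_val_one, Matrix.cons_val, x0, y0, n0]
      rw [hc, ha1, ha2]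
      module
    · simp only [Fin.mk_one, Fin.isValue, Matrix.of_apply, Matrix.cons_val', Matrix.cons_val_zero,
        Matrix.cons_val_one, Matrix.cons_val, x1, y1', n1]
      rw [hc, ha1, ha2]
      module
    · simp only [Fin.reduceFinMk, Fin.isValue, Matrix.of_apply, Matrix.cons_val', Matrix.cons_val_zero,
        Matrix.cons_val_one, Matrix.cons_val, x2, y2', n2]
      rw [hc, ha1, ha2]
      module
    · simp only [Fin.reduceFinMk, Fin.isValue, Matrix.of_apply, Matrix.cons_val', Matrix.cons_val_zero,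
        Matrix.cons_val_one, Matrix.cons_val, x3, y3', n3]
      rw [hc, ha1, ha2]
      module
  have hN : LinearMap.toMatrix b b (Matrix.toLin' matB) =
      !![c' + 8 * b1 + b2 / 8, 0, 0, 0;
        -(u' / 2 + b2 / 4), c' + 2 * b1 + b2 / 2, 0, 0;
        0, -(u' / 2 + b2), c' + b1 / 2 + 2 * b2, 0;
        0, 0, -(u' / 2 + 4 * b2), c' + b1 / 8 + 8 * b2] := by
    refine toMatrix_of fun j => ?_
    rw [Fin.sum_univ_four, hBb]
    fin_cases j
    · simp only [Fin.mk_zero, Fin.isValue, Matrix.of_apply, Matrix.cons_val', Matrix.cons_val_zero,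
        Matrix.cons_val_one, Matrix.cons_val, z0, y0, m0]
      rw [hc', hb1, hb2]
      module
    · simp only [Fin.mk_one, Fin.isValue, Matrix.of_apply, Matrix.cons_val', Matrix.cons_val_zero,
        Matrix.cons_val_one, Matrix.cons_val, z1, y1', m1]
      rw [hc', hb1, hb2]
      module
    · simp only [Fin.reduceFinMk, Fin.isValue, Matrix.of_apply, Matrix.cons_val', Matrix.cons_val_zero,
        Matrix.cons_val_one, Matrix.cons_val, z2, y2', m2]
      rw [hc', hb1, hb2]
      module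
    · simp only [Fin.reduceFinMk, Fin.isValue, Matrix.of_apply, Matrix.cons_val', Matrix.cons_val_zero,
        Matrix.cons_val_one, Matrix.cons_val, z3, y3', m3]
      rw [hc', hb1, hb2]
      module
  have dA : ∀ x : ℝ, (x • (1 : Matrix (Fin 4) (Fin 4) ℝ) - matA).det
      = (x - 129 / 8) * (x - 9 / 2) * (x - 3) * (x - 33 / 4) := by
    intro x
    simp [matA, Matrix.det_succ_row_zero, Fin.sum_univ_succ, Fin.succAbove, Matrix.one_apply]
    ring
  have dB : ∀ x : ℝ, (x • (1 : Matrix (Fin 4) (Fin 4) ℝ) - matB).det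
      = (x - 129 / 8) * (x - 9 / 2) * (x - 3) * (x - 33 / 4) := by
    intro x
    simp [matB, Matrix.det_succ_row_zero, Fin.sum_univ_succ, Fin.succAbove, Matrix.one_apply]
    ring
  have cA := coeffs c a1 a2 (by
    intro x
    rw [← dA, ← det_eq _ _ b hM]
    simp [Matrix.det_succ_row_zero, Fin.sum_univ_succ, Fin.succAbove, Matrix.one_apply]
    ring)
  have cB := coeffs c' b2 b1 (by
    intro x
    rw [← dB, ← det_eq _ _ b hN]
    simp [Matrix.det_succ_row_zero, Fin.sum_univ_succ, Fin.succAbove, Matrix.one_apply]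
    ring)
  have t1 : (LinearMap.toMatrix b b (Matrix.toLin' matA) *
      LinearMap.toMatrix b b (Matrix.toLin' matB)).trace = (matA * matB).trace := by
    rw [← LinearMap.toMatrix_mul, Module.End.mul_eq_comp, ← Matrix.toLin'_mul]
    exact trace_eq _ _ b rfl
  have t2 : (LinearMap.toMatrix b b (Matrix.toLin' matA) *
      (LinearMap.toMatrix b b (Matrix.toLin' matA) *
      LinearMap.toMatrix b b (Matrix.toLin' matB))).trace = (matA * (matA * matB)).trace := by
    rw [← LinearMap.toMatrix_mul, ← LinearMap.toMatrix_mul, Module.End.mul_eq_comp,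
      Module.End.mul_eq_comp, ← Matrix.toLin'_mul, ← Matrix.toLin'_mul]
    exact trace_eq _ _ b rfl
  rw [hM, hN] at t1 t2
  obtain ⟨c0, ca⟩ := cA
  obtain ⟨c0', cb⟩ := cB
  rw [c0, c0'] at t1 t2
  refine contra a1 a2 u b1 b2 u' ca cb ?_ ?_
  · have h1 : (matA * matB).trace = 36 := by
      simp [matA, matB, Matrix.trace, Matrix.mul_apply, Fin.sum_univ_four]
      norm_num
    rw [h1] at t1
    rw [← t1]
    simp [Matrix.trace, Matrix.mul_apply, Fin.sum_univ_four]
    ring
  · have h1 : (matA * (matA * matB)).trace = -4455 / 16 := by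
      simp [matA, matB, Matrix.trace, Matrix.mul_apply, Fin.sum_univ_four]
      norm_num
    rw [h1] at t2
    rw [← t2]
    simp [Matrix.trace, Matrix.mul_apply, Fin.sum_univ_four]
    ring

/-- **Theorem.** Q1 is false: over `ℝ`, with `q = 2` (not a root of unity), there is a Leonard pair
on a space of dimension `4` with `β = q² + q⁻²` which has no irreducible `U_q(sl_2)`-module
structure with `A ∈ span (1, X, Y, XY)` and `A' ∈ span (1, Y, Z, YZ)`. -/
theorem result : (∀ k : ℕ, 0 < k → (2 : ℝ) ^ k ≠ 1) ∧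
    ∃ (A A' : End ℝ (Fin 4 → ℝ)) (θ θ' : Fin (3 + 1) → ℝ),
      IsLeonardPair A A' θ θ' ∧
      HasBeta ((2 : ℝ) ^ 2 + ((2 : ℝ)⁻¹) ^ 2) θ ∧ HasBeta ((2 : ℝ) ^ 2 + ((2 : ℝ)⁻¹) ^ 2) θ' ∧
      ¬ HasStructure 2 A A' := by
  refine ⟨fun k hk h => ?_, Matrix.toLin' matA, Matrix.toLin' matB, th, th, leonard, beta_th,
    beta_th, ?_⟩
  · have : (1 : ℝ) < 2 ^ k := one_lt_pow₀ (by norm_num) hk.ne'
    linarith
  · rintro ⟨φ, h1, h2, h3⟩
    exact no_structure φ h1 h2 h3

end Pool.Agent.Results.MP_32472a_al.NoEquitableStructure
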